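import Pool.Agent.R464.GI.Final
import Pool.Agent.R464.GI.Mod
import Pool.Agent.R464.GI.Cnv
import Pool.Agent.R464.GI.Vhs
import Pool.Agent.R464.GI.Ros
import Pool.Agent.R464.GI.Ppr
import Pool.Agent.R464.GI.Sep
import Pool.Agent.R464.GI.Opr
import Pool.Agent.R464.GI.Exh
import Pool.Agent.R464.GI.Hel
import Pool.Agent.R464.GI.Gro

/-!
# The number of isomorphism classes of Grothendieck spaces `c_{0,I}`

There are exactly `2 ^ (2 ^ ℵ₀)` isomorphism classes of Grothendieck spaces of the form
`c_{0,I}`, `I` a proper ideal on `ℕ` containing the finite sets.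

The examples are the ideals `IU U` of the sets `A ⊆ ℕ × ℕ` with `U`-almost all columns finite,
for the nonprincipal ultrafilters `U`.
-/

set_option autoImplicit false

open Pool.Agent.R464.GI

namespace Pool.Agent.Results.MP_fd6cd5_an.IsoClasses

/-- There are exactly `2 ^ (2 ^ ℵ₀)` classes, under linear homeomorphism, of Grothendieck spaces
`c_{0,I}`. -/
theorem result : Cardinal.mk (Quotient isoSetoid) =
    (2 : Cardinal.{0}) ^ ((2 : Cardinal.{0}) ^ Cardinal.aleph0) :=
  final (fibStm sepStm oprStm) (fun U hU =>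
    groStm modStm cnvStm vhsStm helStm complete_X (idl U) (exhStm rosStm pprStm U hU))

end Pool.Agent.Results.MP_fd6cd5_an.IsoClasses
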